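import Mathlib

set_option autoImplicit false

universe u v

namespace Pool.Agent.Results.MP_82f72d_al.UnimodularAllLengths

/-- `G` is solvable of derived length exactly `d`: `d` is the least `n` with `G^(n) = 1`. -/
def HasDerivedLength (G : Type u) [Group G] (d : ℕ) : Prop :=
  IsLeast {n : ℕ | derivedSeries G n = ⊥} d

/-- An equation over `G` in one unknown `x`: an element of the free product `G * ⟨x⟩`, where
`⟨x⟩` is infinite cyclic (`x` is `Monoid.Coprod.inr (Multiplicative.ofAdd 1)`). -/
abbrev Equation (G : Type u) [Group G] : Type u := Monoid.Coprod G (Multiplicative ℤ)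

/-- The equation `w = 1` is unimodular: the exponent sum of `x` in `w`, i.e. the image of `w`
under the homomorphism `G * ⟨x⟩ → ℤ` which kills `G` and sends `x` to `1`, is `1` or `-1`. -/
def IsUnimodular {G : Type u} [Group G] (w : Equation G) : Prop :=
  (Monoid.Coprod.snd w : Multiplicative ℤ).toAdd = 1 ∨
    (Monoid.Coprod.snd w : Multiplicative ℤ).toAdd = -1

/-- The value `w(h)` in `H` of `w ∈ G * ⟨x⟩` at `x = h`, where `G` is mapped to `H` by `ι`. -/
def value {G : Type u} {H : Type v} [Group G] [Group H] (ι : G →* H) (h : H)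
    (w : Equation G) : H :=
  Monoid.Coprod.lift ι (zpowersHom H h) w

/-- The equation `w = 1` over `G` has a solution in the overgroup `H` of `G`, the group `G` being
embedded in `H` by `ι`. -/
def HasSolution {G : Type u} {H : Type v} [Group G] [Group H] (ι : G →* H)
    (w : Equation G) : Prop :=
  ∃ h : H, value ι h w = 1

/-! ### The base case: derived length two -/

section Base

open scoped commutatorElement

theorem comm_of_metabelian {H : Type*} [Group H] (hH : derivedSeries H 2 = ⊥) (x y : H)
    (hx : x ∈ commutator H) (hy : y ∈ commutator H) : x * y = y * x := by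
  have h1 : ⁅x, y⁆ ∈ derivedSeries H 2 := by
    rw [derivedSeries_succ, derivedSeries_one]
    exact Subgroup.commutator_mem_commutator hx hy
  rw [hH, Subgroup.mem_bot] at h1
  exact commutatorElement_eq_one_iff_mul_comm.mp h1

theorem comm_aux {K : Type*} [CommGroup K] (a b c d : K) :
    a * b⁻¹ * c * (b * c⁻¹ * d) = a * d := by
  have h : (Additive.ofMul a + -Additive.ofMul b + Additive.ofMul c +
      (Additive.ofMul b + -Additive.ofMul c + Additive.ofMul d)) =
      Additive.ofMul a + Additive.ofMul d := by abel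
  exact h

theorem base_unsolvable {H : Type*} [Group H] (hH : derivedSeries H 2 = ⊥) (b t h : H)
    (hb : b ≠ 1) (hb7 : b ^ 7 = 1) (htb : t * b * t⁻¹ = b ^ 3) (ht : t ^ 6 = 1)
    (heq : h * (t * h⁻¹ * t⁻¹) * (t ^ 2 * h * (t ^ 2)⁻¹) * b⁻¹ = 1) : False := by
  have hbc : b ∈ commutator H := by
    have h1 : b = ⁅t, b ^ 4⁆ := by
      rw [commutatorElement_def]
      have h2 : t * b ^ 4 * t⁻¹ = (t * b * t⁻¹) ^ 4 := by
        rw [conj_pow]
      rw [h2, htb, ← pow_mul]
      have h3 : b ^ (3 * 4) = b * (b ^ 7) * b ^ 4 := by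
        group
      rw [h3, hb7]
      group
    rw [h1]
    exact Subgroup.commutator_mem_commutator (Subgroup.mem_top _) (Subgroup.mem_top _)
  have hhc : h ∈ commutator H := by
    have h1 : Abelianization.of h = 1 := by
      have h2 := congrArg (Abelianization.of) heq
      have h3 : Abelianization.of b = 1 := by
        have : b ∈ (Abelianization.of (G := H)).ker := by
          rw [Abelianization.ker_of]; exact hbc
        exact this
      simp only [map_mul, map_inv, map_pow, map_one, h3, inv_one, mul_one] at h2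
      have h4 : Abelianization.of h * (Abelianization.of t * (Abelianization.of h)⁻¹ *
          (Abelianization.of t)⁻¹) * (Abelianization.of t ^ 2 * Abelianization.of h *
          (Abelianization.of t ^ 2)⁻¹) = Abelianization.of h := by
        rw [mul_comm (Abelianization.of t) ((Abelianization.of h)⁻¹),
          mul_comm (Abelianization.of t ^ 2) (Abelianization.of h)]
        group
      rw [h4] at h2
      exact h2
    have : h ∈ (Abelianization.of (G := H)).ker := h1
    rwa [Abelianization.ker_of] at this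
  -- conjugates of `h`
  have hn : (commutator H).Normal := inferInstance
  have key : ∀ k : ℕ, t ^ k * h * (t ^ k)⁻¹ ∈ commutator H := fun k => hn.conj_mem h hhc (t ^ k)
  have hcomm := comm_of_metabelian hH
  have e0 : h * (t * h * t⁻¹)⁻¹ * (t ^ 2 * h * (t ^ 2)⁻¹) = b := by
    have := mul_inv_eq_one.mp heq
    rw [← this]; group
  -- `σ i` is conjugation by `t ^ i`
  let x : ℕ → H := fun k => t ^ k * h * (t ^ k)⁻¹
  have hx : ∀ k, x k ∈ commutator H := key
  have hxe : ∀ k, x k * (x (k + 1))⁻¹ * x (k + 2) = t ^ k * b * (t ^ k)⁻¹ := by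
    intro k
    rw [← e0]
    simp only [x]
    group
  have hx6 : x 6 = x 0 := by
    simp only [x, ht]; simp
  have hbk : ∀ k, t ^ k * b * (t ^ k)⁻¹ = b ^ (3 ^ k) := by
    intro k
    induction k with
    | zero => simp
    | succ k ih =>
      have : t ^ (k + 1) * b * (t ^ (k + 1))⁻¹ = t * (t ^ k * b * (t ^ k)⁻¹) * t⁻¹ := by
        rw [pow_succ' t k]; group
      rw [this, ih]
      have h2 : t * b ^ 3 ^ k * t⁻¹ = (t * b * t⁻¹) ^ 3 ^ k := by rw [conj_pow]
      rw [h2, htb, ← pow_mul, pow_succ, mul_comm]
  have red : ∀ n : ℕ, b ^ n = b ^ (n % 7) := by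
    intro n
    conv_lhs => rw [← Nat.div_add_mod n 7, pow_add, pow_mul, hb7, one_pow, one_mul]
  have c0 : x 0 * (x 1)⁻¹ * x 2 = b := by
    have := hxe 0
    rw [hbk 0] at this; simpa using this
  have c1 : x 1 * (x 2)⁻¹ * x 3 = b ^ 3 := by
    have := hxe 1
    rw [hbk 1] at this; simpa using this
  have c3 : x 3 * (x 4)⁻¹ * x 5 = b ^ 6 := by
    have := hxe 3
    rw [hbk 3, red] at this; simpa using this
  have c4 : x 4 * (x 5)⁻¹ * x 0 = b ^ 4 := by
    have := hxe 4
    rw [hbk 4, red] at this
    simpa [hx6] using this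
  have hK : ∀ p q : commutator H, p * q = q * p := by
    rintro ⟨p, hp⟩ ⟨q, hq⟩
    exact Subtype.ext (hcomm p q hp hq)
  let _ : CommGroup (commutator H) := { (inferInstance : Group (commutator H)) with mul_comm := hK }
  let y : ℕ → commutator H := fun k => ⟨x k, hx k⟩
  let b' : commutator H := ⟨b, hbc⟩
  have d0 : y 0 * (y 1)⁻¹ * y 2 = b' := Subtype.ext c0
  have d1 : y 1 * (y 2)⁻¹ * y 3 = b' ^ 3 := Subtype.ext c1
  have d3 : y 3 * (y 4)⁻¹ * y 5 = b' ^ 6 := Subtype.ext c3
  have d4 : y 4 * (y 5)⁻¹ * y 0 = b' ^ 4 := Subtype.ext c4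
  have m1 : b' * b' ^ 3 = y 0 * y 3 := by
    rw [← d1]
    nth_rewrite 1 [← d0]
    exact comm_aux _ _ _ _
  have m2 : b' ^ 6 * b' ^ 4 = y 0 * y 3 := by
    rw [← d3, ← d4]
    rw [mul_comm (y 0) (y 3)]
    exact comm_aux _ _ _ _
  have m3 : b * b ^ 3 = b ^ 6 * b ^ 4 := congrArg Subtype.val (m1.trans m2.symm)
  apply hb
  have m4 : b ^ 4 = b ^ 3 := by
    have h1 : b * b ^ 3 = b ^ 4 := by group
    have h2 : b ^ 6 * b ^ 4 = b ^ 10 := by group
    rw [h1, h2, red 10] at m3
    exact m3
  have : b ^ 3 * b = b ^ 3 * 1 := by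
    rw [mul_one, ← pow_succ]; exact m4
  exact mul_left_cancel this

/-- The action of the units of `ℤ/7` on the additive group of `ℤ/7`, written multiplicatively. -/
def affAction : (ZMod 7)ˣ →* MulAut (Multiplicative (ZMod 7)) :=
  ((MulAutMultiplicative (ZMod 7)).symm.toMonoidHom).comp
    (DistribMulAction.toAddAut (ZMod 7)ˣ (ZMod 7))

theorem affAction_apply (u : (ZMod 7)ˣ) (z : ZMod 7) :
    affAction u (Multiplicative.ofAdd z) = Multiplicative.ofAdd ((u : ZMod 7) * z) := rfl

/-- The affine group of the line over the field with 7 elements; it has order 42. -/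
abbrev Aff7 : Type := Multiplicative (ZMod 7) ⋊[affAction] (ZMod 7)ˣ

instance : Finite Aff7 := Finite.of_injective (fun g : Aff7 => (g.left, g.right)) (by
  intro g h hgh
  simp only [Prod.mk.injEq] at hgh
  exact SemidirectProduct.ext hgh.1 hgh.2)

theorem aff7_derived : derivedSeries Aff7 2 = ⊥ := by
  have h1 : derivedSeries Aff7 1 ≤ (SemidirectProduct.rightHom : Aff7 →* (ZMod 7)ˣ).ker := by
    rw [derivedSeries_one]
    rw [commutator_def, Subgroup.commutator_le]
    intro g _ h _
    rw [MonoidHom.mem_ker, map_commutatorElement]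
    exact commutatorElement_eq_one_iff_mul_comm.mpr (mul_comm _ _)
  rw [derivedSeries_succ, eq_bot_iff, Subgroup.commutator_le]
  intro g hg h hh
  rw [Subgroup.mem_bot, commutatorElement_eq_one_iff_mul_comm]
  have hg' : g.right = 1 := h1 hg
  have hh' : h.right = 1 := h1 hh
  apply SemidirectProduct.ext
  · simp [hg', hh', mul_comm]
  · simp [hg', hh']

/-- The translation by `1`. -/
def bb : Aff7 := SemidirectProduct.inl (Multiplicative.ofAdd 1)

/-- Multiplication by `3`, a generator of the units of `ℤ/7`. -/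
def tt : Aff7 := SemidirectProduct.inr ⟨3, 5, by decide, by decide⟩

theorem bb_ne : bb ≠ 1 := by
  decide

theorem bb_pow : bb ^ 7 = 1 := by
  decide

theorem tt_pow : tt ^ 6 = 1 := by
  decide

theorem tt_bb : tt * bb * tt⁻¹ = bb ^ 3 := by
  decide

end Base

/-! ### The induction step: wreath products -/

section Step

open scoped commutatorElement

/-- The regular wreath product of a group of order three and `G`. -/
abbrev Wr (G : Type u) [Group G] : Type u := RegularWreathProduct (Multiplicative (ZMod 3)) G

theorem wreath_key {G : Type u} [Group G] (g : G) (hg : g ≠ 1) :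
    ∃ f : Wr G, ⁅⁅f, (RegularWreathProduct.inl g : Wr G)⁆, (RegularWreathProduct.inl g : Wr G)⁆ ≠ 1
    := by
  classical
  let F : G → Multiplicative (ZMod 3) := fun q => if q = 1 then Multiplicative.ofAdd 1 else 1
  refine ⟨⟨F, 1⟩, fun h => ?_⟩
  have h1 := congrFun (congrArg RegularWreathProduct.left h) g
  have hF1 : F 1 = Multiplicative.ofAdd 1 := by simp [F]
  have hFg : F g = 1 := by simp [F, hg]
  have hFg' : F g⁻¹ = 1 := by simp [F, hg]
  simp [commutatorElement_def, hF1, hFg, hFg'] at h1
  revert h1
  decide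

theorem wreath_base_comm {G : Type u} [Group G] (a b : Wr G) (ha : a.right = 1)
    (hb : b.right = 1) : a * b = b * a := by
  ext q
  · simp [ha, hb, mul_comm]
  · simp [ha, hb]

theorem derivedSeries_wreath_le {G : Type u} [Group G] (d : ℕ) (hd : derivedSeries G d = ⊥) :
    derivedSeries (Wr G) (d + 1) = ⊥ := by
  have h1 : derivedSeries (Wr G) d ≤ (RegularWreathProduct.rightHom : Wr G →* G).ker := by
    intro x hx
    have := map_derivedSeries_le_derivedSeries (RegularWreathProduct.rightHom : Wr G →* G) d
      (Subgroup.mem_map_of_mem _ hx)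
    rw [hd] at this
    exact this
  rw [derivedSeries_succ, eq_bot_iff, Subgroup.commutator_le]
  intro g hg h hh
  rw [Subgroup.mem_bot, commutatorElement_eq_one_iff_mul_comm]
  exact wreath_base_comm g h (h1 hg) (h1 hh)

theorem derivedSeries_wreath_ne {G : Type u} [Group G] (d : ℕ) (hd : derivedSeries G d ≠ ⊥) :
    derivedSeries (Wr G) (d + 1) ≠ ⊥ := by
  intro hbot
  obtain ⟨z, hz, hz1⟩ : ∃ z : G, z ∈ derivedSeries G d ∧ z ≠ 1 := by
    by_contra hcon
    push Not at hcon
    exact hd ((Subgroup.eq_bot_iff_forall _).mpr hcon)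
  obtain ⟨f, hf⟩ := wreath_key z hz1
  apply hf
  have h1 : (RegularWreathProduct.inl z : Wr G) ∈ derivedSeries (Wr G) d :=
    map_derivedSeries_le_derivedSeries (RegularWreathProduct.inl : G →* Wr G) d
      (Subgroup.mem_map_of_mem _ hz)
  have hn : (derivedSeries (Wr G) d).Normal := derivedSeries_normal _ d
  have h2 : ⁅f, (RegularWreathProduct.inl z : Wr G)⁆ ∈ derivedSeries (Wr G) d := by
    rw [commutatorElement_def]
    exact mul_mem (hn.conj_mem _ h1 f) (inv_mem h1)
  have h3 := Subgroup.commutator_mem_commutator h2 h1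
  rw [← derivedSeries_succ, hbot] at h3
  exact h3

theorem derivedLength_wreath {G : Type u} [Group G] (d : ℕ) (hd : HasDerivedLength G (d + 1)) :
    HasDerivedLength (Wr G) (d + 2) := by
  constructor
  · exact derivedSeries_wreath_le (d + 1) hd.1
  · intro n hn
    by_contra hlt
    push Not at hlt
    have h1 : derivedSeries (Wr G) (d + 1) = ⊥ := by
      rw [eq_bot_iff]
      have : derivedSeries (Wr G) n = ⊥ := hn
      rw [← this]
      exact derivedSeries_antitone _ (by omega)
    refine derivedSeries_wreath_ne d (fun h => ?_) h1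
    have := hd.2 h
    omega

/-- An equation over `G` which has no solution in an overgroup of derived length at most `d` has,
as an equation over the wreath product, no solution in an overgroup of derived length at most
`d + 1`. -/
theorem step_unsolvable {G : Type} [Group G] (d : ℕ) (w : Equation G)
    (hw : ∀ (H : Type u) [Group H], derivedSeries H d = ⊥ → ∀ ι : G →* H,
      Function.Injective ι → ¬ HasSolution ι w)
    (H : Type u) [Group H] (hH : derivedSeries H (d + 1) = ⊥) (ι : Wr G →* H)
    (hι : Function.Injective ι) :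
    ¬ HasSolution ι (Monoid.Coprod.map RegularWreathProduct.inl (MonoidHom.id _) w) := by
  rintro ⟨h, hh⟩
  have hN : (derivedSeries H d).Normal := derivedSeries_normal _ d
  let N := derivedSeries H d
  have hQ : derivedSeries (H ⧸ N) d = ⊥ := by
    rw [← map_derivedSeries_eq (f := QuotientGroup.mk' N) (QuotientGroup.mk'_surjective N) d]
    rw [Subgroup.map_eq_bot_iff]
    rw [QuotientGroup.ker_mk']
  let κ : G →* H ⧸ N := ((QuotientGroup.mk' N).comp ι).comp RegularWreathProduct.inl
  have hκ : Function.Injective κ := by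
    rw [injective_iff_map_eq_one]
    intro g hg
    by_contra hg1
    obtain ⟨f, hf⟩ := wreath_key g hg1
    apply hf
    have h1 : ι (RegularWreathProduct.inl g) ∈ derivedSeries H d := by
      have : QuotientGroup.mk' N (ι (RegularWreathProduct.inl g)) = 1 := hg
      rwa [← MonoidHom.mem_ker, QuotientGroup.ker_mk'] at this
    have h2 : ι ⁅f, (RegularWreathProduct.inl g : Wr G)⁆ ∈ derivedSeries H d := by
      rw [map_commutatorElement, commutatorElement_def]
      exact mul_mem (hN.conj_mem _ h1 (ι f)) (inv_mem h1)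
    have h3 := Subgroup.commutator_mem_commutator h2 h1
    rw [← derivedSeries_succ, hH, Subgroup.mem_bot, ← map_commutatorElement] at h3
    exact (injective_iff_map_eq_one ι).mp hι _ h3
  refine hw (H ⧸ N) hQ κ hκ ⟨QuotientGroup.mk' N h, ?_⟩
  have h4 : value κ (QuotientGroup.mk' N h) w = QuotientGroup.mk' N
      (value ι h (Monoid.Coprod.map RegularWreathProduct.inl (MonoidHom.id _) w)) := by
    have h5 : (Monoid.Coprod.lift κ (zpowersHom (H ⧸ N) (QuotientGroup.mk' N h))) =
        ((QuotientGroup.mk' N).comp (Monoid.Coprod.lift ι (zpowersHom H h))).comp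
          (Monoid.Coprod.map RegularWreathProduct.inl (MonoidHom.id (Multiplicative ℤ))) := by
      apply Monoid.Coprod.hom_ext
      · ext g; rfl
      · ext; simp
    exact DFunLike.congr_fun h5 w
  rw [h4, hh, map_one]

theorem step_unimodular {G : Type} [Group G] (w : Equation G) (hw : IsUnimodular w) :
    IsUnimodular (Monoid.Coprod.map (RegularWreathProduct.inl : G →* Wr G)
      (MonoidHom.id (Multiplicative ℤ)) w) := by
  have h : (Monoid.Coprod.snd : Equation (Wr G) →* Multiplicative ℤ).comp
      (Monoid.Coprod.map (RegularWreathProduct.inl : G →* Wr G)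
        (MonoidHom.id (Multiplicative ℤ))) = Monoid.Coprod.snd := by
    apply Monoid.Coprod.hom_ext
    · ext g; rfl
    · ext; rfl
  have h2 := DFunLike.congr_fun h w
  unfold IsUnimodular at hw ⊢
  rw [← h2] at hw
  exact hw

end Step

/-- The unknown `x` as an element of `G * ⟨x⟩`. -/
abbrev unknown (G : Type) [Group G] : Equation G := Monoid.Coprod.inr (Multiplicative.ofAdd 1)

/-- The equation `x * (t * x⁻¹ * t⁻¹) * (t² * x * t⁻²) * b⁻¹ = 1` over `AGL(1,7)`. -/
def ww : Equation Aff7 :=
  unknown Aff7 * (Monoid.Coprod.inl tt * (unknown Aff7)⁻¹ * (Monoid.Coprod.inl tt)⁻¹) *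
    (Monoid.Coprod.inl tt ^ 2 * unknown Aff7 * (Monoid.Coprod.inl tt ^ 2)⁻¹) *
    (Monoid.Coprod.inl bb)⁻¹

theorem ww_unimodular : IsUnimodular ww := by
  left
  simp [ww]

theorem base (H : Type u) [Group H] (hH : derivedSeries H 2 = ⊥) (ι : Aff7 →* H)
    (hι : Function.Injective ι) : ¬ HasSolution ι ww := by
  rintro ⟨h, hh⟩
  refine base_unsolvable hH (ι bb) (ι tt) h ?_ ?_ ?_ ?_ ?_
  · intro h1
    exact bb_ne ((injective_iff_map_eq_one ι).mp hι _ h1)
  · rw [← map_pow, bb_pow, map_one]
  · rw [← map_inv, ← map_mul, ← map_mul, ← map_pow, tt_bb]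
  · rw [← map_pow, tt_pow, map_one]
  · simpa [value, ww] using hh

theorem main (d : ℕ) : ∃ (G : Type) (_ : Group G) (_ : Finite G) (w : Equation G),
    HasDerivedLength G (d + 2) ∧ IsUnimodular w ∧
      ∀ (H : Type u) [Group H], derivedSeries H (d + 2) = ⊥ → ∀ ι : G →* H,
        Function.Injective ι → ¬ HasSolution ι w := by
  induction d with
  | zero =>
    refine ⟨Aff7, inferInstance, inferInstance, ww, ⟨aff7_derived, ?_⟩, ww_unimodular, ?_⟩
    · intro n hn
      by_contra hlt
      push Not at hlt
      have h1 : derivedSeries Aff7 1 = ⊥ := by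
        rw [eq_bot_iff]
        have : derivedSeries Aff7 n = ⊥ := hn
        rw [← this]
        exact derivedSeries_antitone _ (by omega)
      have h2 : bb ^ 2 ∈ derivedSeries Aff7 1 := by
        have h3 : bb ^ 2 = tt * bb * tt⁻¹ * bb⁻¹ := by rw [tt_bb]; group
        rw [h3, derivedSeries_one]
        exact Subgroup.commutator_mem_commutator (Subgroup.mem_top _) (Subgroup.mem_top _)
      rw [h1, Subgroup.mem_bot] at h2
      revert h2
      decide
    · intro H _ hH ι hι
      exact base H hH ι hι
  | succ d ih =>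
    obtain ⟨G, _, _, w, hd, hu, hw⟩ := ih
    exact ⟨Wr G, inferInstance, inferInstance,
      Monoid.Coprod.map RegularWreathProduct.inl (MonoidHom.id _) w,
      derivedLength_wreath (d + 1) hd, step_unimodular w hu,
      fun H _ hH ι hι => step_unsolvable (d + 2) w hw H hH ι hι⟩

/-- For every `d ≥ 3` there are a (finite) solvable group `G` of derived length `d` and a unimodular
equation over `G` which has no solution in any solvable group of derived length `d` containing
`G`. -/
theorem result (d : ℕ) (hd : 3 ≤ d) :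
    ∃ (G : Type) (_ : Group G) (_ : Finite G) (w : Equation G),
      HasDerivedLength G d ∧ IsUnimodular w ∧
        ∀ (H : Type u) [Group H], HasDerivedLength H d → ∀ ι : G →* H,
          Function.Injective ι → ¬ HasSolution ι w := by
  obtain ⟨e, rfl⟩ : ∃ e, d = e + 2 := ⟨d - 2, by omega⟩
  obtain ⟨G, i1, i2, w, h1, h2, h3⟩ := main.{u} e
  exact ⟨G, i1, i2, w, h1, h2, fun H _ hH ι hι => h3 H hH.1 ι hι⟩

end Pool.Agent.Results.MP_82f72d_al.UnimodularAllLengths
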